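import Mathlib
import Pool.Agent.Helper669.KHuge

set_option autoImplicit false

/-!
# Highly connected partition relations in the language of forcing; measurable cardinals
-/

namespace Pool.Agent.H995R3

open Cardinal Pool.Agent.Helper669.Forcing Pool.Agent.Helper669.K

section

variable {P : Type} [Preorder P]

/-- `c` names a colouring of the unordered pairs of distinct elements of `X` with natural
numbers: `c x y n` names the truth value of `c {x, y} = n`. -/
def IsPairColouring {X : Type} (c : X → X → ℕ → Set P) : Set P :=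
  fall fun x => fall fun y => fall fun _ : x ≠ y =>
    fand (fex fun n => meets (c x y n))
      (fand
        (fall fun n => fall fun m =>
          fimp (fand (meets (c x y n)) (meets (c x y m))) (fground (n = m)))
        (fall fun n => fimp (meets (c x y n)) (meets (c y x n))))

/-- The named subset `C` of `X` has smaller cardinality than `X`: for some cardinal `ν < |X|`
there is a function from `ν` to `X` whose range covers `C`. -/
def IsSmall {X : Type} (C : X → Set P) : Set P :=
  fex fun ν : Cardinal.{0} => fex fun _ : ν < #X => fex fun R : ν.out → X → Set P =>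
    fand (IsFun R) (fall fun y => fimp (meets (C y)) (fex fun x => meets (R x y)))

/-- `x` belongs to `A` and not to `C`. -/
def InDiff {X : Type} (A C : X → Set P) (x : X) : Set P :=
  fand (meets (A x)) (fnot (meets (C x)))

/-- The relation `κ →_{hc,<n} (κ)²_ω`, where `κ = |X|`, in the generic extension: for every
colouring `c` of the pairs of elements of `X` with natural numbers there are a set `A ⊆ X` of
cardinality `|X|` and a colour `i` such that for every `C ⊆ A` of smaller cardinality all
`x, y ∈ A ∖ C` are joined by a path of length `l < n` with all vertices in `A ∖ C` all of whose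
edges have colour `i`. -/
def HcBelow (P : Type) [Preorder P] (X : Type) (n : ℕ) : Set P :=
  fall fun c : X → X → ℕ → Set P => fimp (IsPairColouring c)
    (fex fun A : X → Set P => fex fun i : ℕ => fand (HasFullSize A)
      (fall fun C : X → Set P => fimp (fand (Sub C A) (IsSmall C))
        (fall fun x => fall fun y => fimp (fand (InDiff A C x) (InDiff A C y))
          (fex fun l : ℕ => fex fun _ : l < n => fex fun γ : ℕ → X =>
            fand (fground (γ 0 = x ∧ γ l = y))
              (fand (fall fun k => fall fun _ : k ≤ l => InDiff A C (γ k))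
                (fall fun j => fall fun _ : j < l =>
                  fand (fground (γ j ≠ γ (j + 1))) (meets (c (γ j) (γ (j + 1)) i))))))))

end

/-- `κ` is a measurable cardinal: it is uncountable and there is a `κ`-complete ultrafilter on
`κ` containing no singleton. -/
def IsMeasurable (κ : Cardinal.{0}) : Prop :=
  ℵ₀ < κ ∧ ∃ U : Ultrafilter κ.ord.ToType,
    (∀ ν < κ, ∀ A : ν.out → Set κ.ord.ToType, (∀ i, A i ∈ U) → (⋂ i, A i) ∈ U) ∧
    ∀ a : κ.ord.ToType, ({a} : Set κ.ord.ToType) ∉ U

/-- `U` is a normal ultrafilter. -/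
structure Nrm (κ : Cardinal.{0}) {K : Type} [LinearOrder K] (U : Ultrafilter K) : Prop where
  comp : ∀ {ι : Type}, #ι < κ → ∀ p : ι → K → Prop,
    (∀ i, ∀ᶠ α in (U : Filter K), p i α) → ∀ᶠ α in (U : Filter K), ∀ i, p i α
  norm : ∀ p : K → K → Prop, (∀ a, ∀ᶠ α in (U : Filter K), p a α) →
    ∀ᶠ α in (U : Filter K), ∀ a < α, p a α
  big : ∀ a, ∀ᶠ α in (U : Filter K), a < α

theorem regular_of_measurable {κ : Cardinal.{0}} (h : IsMeasurable κ) :
    κ.IsRegular ∧ ∀ μ < κ, 2 ^ μ < κ := by
  obtain ⟨h0, U, hU1, hU2⟩ := h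
  refine J1_core h0 {A | A ∈ U} ?_ ?_ ?_ ?_
  · intro A B hA hAB
    exact Filter.mem_of_superset (show A ∈ U from hA) hAB
  · intro A
    show A ∈ U ↔ ¬ (Aᶜ ∈ U)
    rw [Ultrafilter.compl_mem_iff_notMem, not_not]
  · intro ν hν X hX
    exact hU1 ν hν X hX
  · intro a ha
    exact hU2 a ha

theorem exists_normal {κ : Cardinal.{0}} (h : IsMeasurable κ) :
    ∃ U : Ultrafilter κ.ord.ToType, Nrm κ U := by
  classical
  obtain ⟨hκ, h2⟩ := regular_of_measurable h
  obtain ⟨h0, U, hU1, hU2⟩ := h
  -- completeness for arbitrary small index types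
  have comp : ∀ {ι : Type}, #ι < κ → ∀ p : ι → κ.ord.ToType → Prop,
      (∀ i, ∀ᶠ α in (U : Filter κ.ord.ToType), p i α) →
      ∀ᶠ α in (U : Filter κ.ord.ToType), ∀ i, p i α := by
    intro ι hι p hp
    obtain ⟨e⟩ : Nonempty ((#ι).out ≃ ι) := by
      rw [← Cardinal.eq]
      simp
    have h3 := hU1 (#ι) hι (fun j => {x | p (e j) x}) (fun j => hp _)
    filter_upwards [h3] with x hx i
    have h4 := Set.mem_iInter.1 hx (e.symm i)
    simpa using h4
  have small : ∀ S : Set κ.ord.ToType, #S < κ → ∀ᶠ α in (U : Filter κ.ord.ToType), α ∉ S := by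
    intro S hS
    have h3 := comp hS (fun (s : S) α => α ≠ s.1) (fun s => by
      have h4 : ({s.1} : Set κ.ord.ToType)ᶜ ∈ U := Ultrafilter.compl_mem_iff_notMem.2 (hU2 s.1)
      exact h4)
    filter_upwards [h3] with x hx hxS
    exact hx ⟨x, hxS⟩ rfl
  have hIic : ∀ b : κ.ord.ToType, #(Set.Iic b) < κ := by
    intro b
    have h3 : #(Set.Iio b) < κ := Cardinal.mk_Iio_toType_ord_lt b
    have h4 : Set.Iic b = insert b (Set.Iio b) := by
      ext y; simp [le_iff_eq_or_lt]
    rw [h4]
    refine lt_of_le_of_lt Cardinal.mk_insert_le ?_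
    exact Cardinal.add_lt_of_lt hκ.aleph0_le h3 (lt_of_lt_of_le Cardinal.one_lt_aleph0 hκ.aleph0_le)
  have hbig : ∀ b : κ.ord.ToType, ∀ᶠ α in (U : Filter κ.ord.ToType), b < α := by
    intro b
    filter_upwards [small (Set.Iic b) (hIic b)] with α hα
    exact not_le.1 hα
  -- the well-founded relation
  let r : (κ.ord.ToType → κ.ord.ToType) → (κ.ord.ToType → κ.ord.ToType) → Prop :=
    fun f g => ∀ᶠ α in (U : Filter κ.ord.ToType), f α < g α
  have hwf : WellFounded r := by
    rw [wellFounded_iff_isEmpty_descending_chain]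
    refine ⟨fun ⟨f, hf⟩ => ?_⟩
    have h3 : ∀ᶠ α in (U : Filter κ.ord.ToType), ∀ n : ℕ, f (n + 1) α < f n α :=
      comp (by rw [Cardinal.mk_nat]; exact h0) (fun n α => f (n + 1) α < f n α) (fun n => hf n)
    obtain ⟨α, hα⟩ := h3.exists
    have h5 : WellFounded (fun a b : κ.ord.ToType => a < b) := wellFounded_lt
    rw [wellFounded_iff_isEmpty_descending_chain] at h5
    exact h5.false ⟨fun n => f n α, hα⟩
  let S : Set (κ.ord.ToType → κ.ord.ToType) :=
    {f | ∀ b, ∀ᶠ α in (U : Filter κ.ord.ToType), b < f α}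
  have hSne : S.Nonempty := ⟨id, hbig⟩
  let f := hwf.min S hSne
  have hfS : f ∈ S := hwf.min_mem S hSne
  have hfmin : ∀ g ∈ S, ¬ r g f := fun g hg => hwf.not_lt_min S hg
  have hreg : ∀ g : κ.ord.ToType → κ.ord.ToType, (∀ᶠ α in (U : Filter κ.ord.ToType), g α < f α) →
      ∃ a, ∀ᶠ α in (U : Filter κ.ord.ToType), g α = a := by
    intro g hg
    have h3 : g ∉ S := fun h => hfmin g h hg
    have h3' : ∃ b, ¬ ∀ᶠ α in (U : Filter κ.ord.ToType), b < g α := by
      by_contra hcon
      push Not at hcon
      exact h3 hcon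
    obtain ⟨b, hb⟩ := h3'
    rw [← Ultrafilter.eventually_not] at hb
    by_contra hcon
    push Not at hcon
    have h4 := comp (hIic b) (fun (a : Set.Iic b) α => g α ≠ a.1) (fun a => hcon a.1)
    obtain ⟨α, h5, h6⟩ := (h4.and hb).exists
    exact h5 ⟨g α, not_lt.1 h6⟩ rfl
  refine ⟨U.map f, ⟨?_, ?_, ?_⟩⟩
  · intro ι hι p hp
    exact comp hι (fun i α => p i (f α)) hp
  · intro p hp
    by_contra hcon
    rw [← Ultrafilter.eventually_not] at hcon
    have hcon' : ∀ᶠ α in (U : Filter κ.ord.ToType), ¬ ∀ a < f α, p a (f α) := hcon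
    haveI : Nonempty κ.ord.ToType := Filter.nonempty_of_neBot (U : Filter κ.ord.ToType)
    choose! g hg using fun (α : κ.ord.ToType) (h : ∃ a, a < f α ∧ ¬ p a (f α)) => h
    have h3 : ∀ᶠ α in (U : Filter κ.ord.ToType), g α < f α ∧ ¬ p (g α) (f α) := by
      filter_upwards [hcon'] with α hα
      push Not at hα
      exact hg α hα
    obtain ⟨a, ha⟩ := hreg g (h3.mono fun α h => h.1)
    have h4 : ∀ᶠ α in (U : Filter κ.ord.ToType), p a (f α) := hp a
    obtain ⟨α, ⟨h5, h6⟩, h7⟩ := ((h3.and ha).and h4).exists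
    rw [h6] at h5
    exact h5.2 h7
  · intro a
    exact hfS a

end Pool.Agent.H995R3
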