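import Pool.Agent.H995R3.Types

set_option autoImplicit false

/-!
# Dense pairs of functions, and the main combinatorial lemma
-/

namespace Pool.Agent.H995R3

open Cardinal Pool.Agent.Helper669.Forcing Pool.Agent.Helper669.K

variable {κ : Cardinal.{0}} {K W : Type} [LinearOrder K] {U : Ultrafilter K}

/-- `f ≤ g` almost everywhere -/
def Le (U : Ultrafilter K) (f g : K → LC W K) : Prop := ∀ᶠ α in (U : Filter K), f α ≤ g α

theorem Le.refl (f : K → LC W K) : Le U f f := Filter.Eventually.of_forall fun _ => le_rfl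

theorem Le.trans {f g h : K → LC W K} (h1 : Le U f g) (h2 : Le U g h) : Le U f h := by
  filter_upwards [h1, h2] with α h1 h2
  exact h1.trans h2

/-- the pair of functions `L`, `q` is dense for `C` -/
def Dens (U : Ultrafilter K) (C : K → K → Set (LC W K)) (L q : K → LC W K) : Prop :=
  ∀ (L' q' : K → LC W K) (s' : LC W K), Le U L' L → Le U q' q → Ty U s' L' → Ty U s' q' →
    ∀ᶠ α in (U : Filter K), ∀ᶠ β in (U : Filter K), ∃ t, t ≤ L' α ∧ t ≤ q' β ∧ t ∈ C α β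

theorem exists_dens (hN : Nrm κ U) (h0 : ℵ₀ < κ) (C : ℕ → K → K → Set (LC W K))
    (hC : ∀ n α β, Down (C n α β)) (p0 : LC W K)
    (hc : ∀ t ≤ p0, ∀ α β, α < β → ∃ t' ≤ t, ∃ n, t' ∈ C n α β)
    (h : K → LC W K) (s : LC W K) (hs : Ty U s h) (hsp : s ≤ p0) :
    ∃ (i : ℕ) (L q : K → LC W K) (s' : LC W K), Le U L h ∧ Le U q h ∧ Ty U s' L ∧ Ty U s' q ∧
      Dens U (C i) L q := by
  classical
  by_contra hcon
  push Not at hcon
  let St : Type := {x : (K → LC W K) × (K → LC W K) × LC W K //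
    Le U x.1 h ∧ Le U x.2.1 h ∧ Ty U x.2.2 x.1 ∧ Ty U x.2.2 x.2.1}
  have step : ∀ (n : ℕ) (x : St), ∃ y : St, Le U y.1.1 x.1.1 ∧ Le U y.1.2.1 x.1.2.1 ∧
      ∀ᶠ α in (U : Filter K), ∀ᶠ β in (U : Filter K),
        ¬ ∃ t, t ≤ y.1.1 α ∧ t ≤ y.1.2.1 β ∧ t ∈ C n α β := by
    rintro n ⟨⟨L, q, s1⟩, h1, h2, h3, h4⟩
    have h5 := hcon n L q s1 h1 h2 h3 h4
    unfold Dens at h5
    simp only [not_forall, exists_prop] at h5
    obtain ⟨L', q', s', h6, h7, h8, h9, h10⟩ := h5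
    refine ⟨⟨⟨L', q', s'⟩, h6.trans h1, h7.trans h2, h8, h9⟩, h6, h7, ?_⟩
    rw [← Ultrafilter.eventually_not] at h10
    filter_upwards [h10] with α hα
    rw [← Ultrafilter.eventually_not] at hα
    exact hα
  choose nxt hn1 hn2 hn3 using step
  let x0 : St := ⟨⟨h, h, s⟩, Le.refl h, Le.refl h, hs, hs⟩
  let sq : ℕ → St := fun n => Nat.rec x0 (fun n x => nxt n x) n
  have hsq : ∀ n, sq (n + 1) = nxt n (sq n) := fun n => rfl
  have hL : ∀ n, Le U (sq (n + 1)).1.1 (sq n).1.1 := fun n => by rw [hsq]; exact hn1 _ _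
  have hq : ∀ n, Le U (sq (n + 1)).1.2.1 (sq n).1.2.1 := fun n => by rw [hsq]; exact hn2 _ _
  have hkill : ∀ n, ∀ᶠ α in (U : Filter K), ∀ᶠ β in (U : Filter K),
      ¬ ∃ t, t ≤ (sq (n + 1)).1.1 α ∧ t ≤ (sq (n + 1)).1.2.1 β ∧ t ∈ C n α β := fun n => by
    rw [hsq]; exact hn3 _ _
  obtain ⟨H1, hH1, hH1'⟩ := exists_lim hN h0 (fun n => (sq n).1.1) hL
  obtain ⟨H2, hH2, hH2'⟩ := exists_lim hN h0 (fun n => (sq n).1.2.1) hq
  have hst : ∀ n, (sq (n + 1)).1.2.2 ≤ (sq n).1.2.2 := fun n =>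
    ((sq n).2.2.2.1).le ((sq (n + 1)).2.2.2.1) (hL n)
  let t0 : LC W K := iU (fun n => (sq n).1.2.2) hst
  have hT1 : Ty U t0 H1 := hH1' (fun n => (sq n).1.2.2) t0 (fun n => (sq n).2.2.2.1) rfl
  have hT2 : Ty U t0 H2 := hH2' (fun n => (sq n).1.2.2) t0 (fun n => (sq n).2.2.2.2) rfl
  have hkall : ∀ᶠ α in (U : Filter K), ∀ n : ℕ, ∀ᶠ β in (U : Filter K),
      ¬ ∃ t, t ≤ (sq (n + 1)).1.1 α ∧ t ≤ (sq (n + 1)).1.2.1 β ∧ t ∈ C n α β :=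
    hN.comp (by rw [Cardinal.mk_nat]; exact h0) (fun (n : ℕ) α => ∀ᶠ β in (U : Filter K),
      ¬ ∃ t, t ≤ (sq (n + 1)).1.1 α ∧ t ≤ (sq (n + 1)).1.2.1 β ∧ t ∈ C n α β) hkill
  have hH1all : ∀ᶠ α in (U : Filter K), ∀ n : ℕ, H1 α ≤ (sq n).1.1 α :=
    hN.comp (by rw [Cardinal.mk_nat]; exact h0) (fun (n : ℕ) α => H1 α ≤ (sq n).1.1 α) hH1
  have hH2all : ∀ᶠ α in (U : Filter K), ∀ n : ℕ, H2 α ≤ (sq n).1.2.1 α :=
    hN.comp (by rw [Cardinal.mk_nat]; exact h0) (fun (n : ℕ) α => H2 α ≤ (sq n).1.2.1 α) hH2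
  obtain ⟨α, h1, h2, h3⟩ := (hkall.and (hH1all.and hT1.h_le)).exists
  have hkβ : ∀ᶠ β in (U : Filter K), ∀ n : ℕ,
      ¬ ∃ t, t ≤ (sq (n + 1)).1.1 α ∧ t ≤ (sq (n + 1)).1.2.1 β ∧ t ∈ C n α β :=
    hN.comp (by rw [Cardinal.mk_nat]; exact h0) (fun (n : ℕ) β =>
      ¬ ∃ t, t ≤ (sq (n + 1)).1.1 α ∧ t ≤ (sq (n + 1)).1.2.1 β ∧ t ∈ C n α β) h1
  obtain ⟨β, h4, h5, h6, h7⟩ :=
    (hkβ.and (hH2all.and ((hT2.add_le hN h0 h3).and (hN.big α)))).exists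
  have h8 : add (H1 α) (H2 β) ≤ p0 := by
    refine h6.1.trans (h3.trans ?_)
    exact (iU_le (fun n => (sq n).1.2.2) hst 0).trans hsp
  obtain ⟨t', ht', n, hn⟩ := hc _ h8 α β h7
  exact h4 n ⟨t', ht'.trans (h6.1.trans (h2 (n + 1))), ht'.trans (h6.2.trans (h5 (n + 1))), hn⟩

theorem exists_good (hN : Nrm κ U) (h0 : ℵ₀ < κ) (hW : #W < κ) (C : ℕ → K → K → Set (LC W K))
    (hC : ∀ n α β, Down (C n α β)) (p0 : LC W K)
    (hc : ∀ t ≤ p0, ∀ α β, α < β → ∃ t' ≤ t, ∃ n, t' ∈ C n α β)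
    (h : K → LC W K) (s : LC W K) (hs : Ty U s h) (hsp : s ≤ p0) :
    ∃ (i : ℕ) (h1 : K → LC W K), Le U h1 h ∧ ∀ h', Le U h' h1 →
      ∃ (L q : K → LC W K) (s' : LC W K), Le U L h' ∧ Le U q h' ∧ Ty U s' L ∧ Ty U s' q ∧
        Dens U (C i) L q := by
  classical
  by_contra hcon
  push Not at hcon
  let St : Type := {x : K → LC W K // Le U x h}
  have step : ∀ (n : ℕ) (x : St), ∃ y : St, Le U y.1 x.1 ∧
      ∀ (L q : K → LC W K) (s' : LC W K), Le U L y.1 → Le U q y.1 → Ty U s' L → Ty U s' q →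
        ¬ Dens U (C n) L q := by
    rintro n ⟨x, hx⟩
    obtain ⟨y, hy, hy'⟩ := hcon n x hx
    exact ⟨⟨y, hy.trans hx⟩, hy, hy'⟩
  choose nxt hn1 hn2 using step
  let x0 : St := ⟨h, Le.refl h⟩
  let sq : ℕ → St := fun n => Nat.rec x0 (fun n x => nxt n x) n
  have hsq : ∀ n, sq (n + 1) = nxt n (sq n) := fun n => rfl
  have hL : ∀ n, Le U (sq (n + 1)).1 (sq n).1 := fun n => by rw [hsq]; exact hn1 _ _
  obtain ⟨H, hH, -⟩ := exists_lim hN h0 (fun n => (sq n).1) hL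
  obtain ⟨s1, hs1⟩ := exists_ty hN h0 hW H
  have h1 : s1 ≤ p0 := (hs.le hs1 (hH 0)).trans hsp
  obtain ⟨i, L, q, s', h2, h3, h4, h5, h6⟩ := exists_dens hN h0 C hC p0 hc H s1 hs1 h1
  have h7 : Le U H (sq (i + 1)).1 := hH (i + 1)
  rw [hsq] at h7
  exact hn2 i (sq i) L q s' (h2.trans h7) (h3.trans h7) h4 h5 h6

/-- the main combinatorial lemma -/
theorem exists_seq (hN : Nrm κ U) (h0 : ℵ₀ < κ) (hW : #W < κ) (C : ℕ → K → K → Set (LC W K))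
    (hC : ∀ n α β, Down (C n α β)) (p0 : LC W K)
    (hc : ∀ t ≤ p0, ∀ α β, α < β → ∃ t' ≤ t, ∃ n, t' ∈ C n α β) :
    ∃ (i : ℕ) (L q : ℕ → K → LC W K) (s : ℕ → LC W K), s 0 ≤ p0 ∧
      (∀ n, s (n + 1) ≤ s n) ∧ (∀ n, Ty U (s n) (L n)) ∧ (∀ n, Ty U (s n) (q n)) ∧
      (∀ k m, k < m → Le U (L m) (q k)) ∧ (∀ n, Dens U (C i) (L n) (q n)) := by
  classical
  have hs : Ty U p0 (fun _ => p0) := by
    filter_upwards [ev_bdd hN h0 p0] with α hα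
    ext x
    exact ⟨fun h => h.1, fun h => ⟨h, hα x h⟩⟩
  obtain ⟨i, h1, hh1, hgood⟩ := exists_good hN h0 hW C hC p0 hc (fun _ => p0) p0 hs le_rfl
  let St : Type := {x : (K → LC W K) × (K → LC W K) × LC W K //
    Le U x.1 h1 ∧ Le U x.2.1 h1 ∧ Ty U x.2.2 x.1 ∧ Ty U x.2.2 x.2.1 ∧ Dens U (C i) x.1 x.2.1}
  have step : ∀ h' : K → LC W K, Le U h' h1 → ∃ y : St, Le U y.1.1 h' ∧ Le U y.1.2.1 h' := by
    intro h' hh'
    obtain ⟨L, q, s', h2, h3, h4, h5, h6⟩ := hgood h' hh'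
    exact ⟨⟨⟨L, q, s'⟩, h2.trans hh', h3.trans hh', h4, h5, h6⟩, h2, h3⟩
  obtain ⟨x0, hx0, hx0'⟩ := step h1 (Le.refl h1)
  have step' : ∀ x : St, ∃ y : St, Le U y.1.1 x.1.2.1 ∧ Le U y.1.2.1 x.1.2.1 :=
    fun x => step x.1.2.1 x.2.2.1
  choose nxt hn1 hn2 using step'
  let sq : ℕ → St := fun n => Nat.rec x0 (fun _ x => nxt x) n
  have hsq : ∀ n, sq (n + 1) = nxt (sq n) := fun n => rfl
  have hL : ∀ n, Le U (sq (n + 1)).1.1 (sq n).1.2.1 := fun n => by rw [hsq]; exact hn1 _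
  have hq : ∀ n, Le U (sq (n + 1)).1.2.1 (sq n).1.2.1 := fun n => by rw [hsq]; exact hn2 _
  have hqq : ∀ k m, k ≤ m → Le U (sq m).1.2.1 (sq k).1.2.1 := by
    intro k m hkm
    induction m, hkm using Nat.le_induction with
    | base => exact Le.refl _
    | succ m _ ih => exact (hq m).trans ih
  refine ⟨i, fun n => (sq n).1.1, fun n => (sq n).1.2.1, fun n => (sq n).1.2.2, ?_, ?_, ?_, ?_, ?_,
    ?_⟩
  · exact hs.le (sq 0).2.2.2.1 ((sq 0).2.1.trans hh1)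
  · intro n
    exact ((sq n).2.2.2.2.1).le ((sq (n + 1)).2.2.2.2.1) (hq n)
  · intro n
    exact (sq n).2.2.2.1
  · intro n
    exact (sq n).2.2.2.2.1
  · intro k m hkm
    obtain ⟨m, rfl⟩ : ∃ m', m = m' + 1 := ⟨m - 1, by omega⟩
    exact (hL m).trans (hqq k m (by omega))
  · intro n
    exact (sq n).2.2.2.2.2

/-- common neighbours -/
theorem common (hN : Nrm κ U) (h0 : ℵ₀ < κ) (hW : #W < κ) (C : K → K → Set (LC W K))
    (hC : ∀ α β, Down (C α β)) (L q : ℕ → K → LC W K) (s : ℕ → LC W K) (p : LC W K)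
    (hp : ∀ n, p ≤ s n) (hTL : ∀ n, Ty U (s n) (L n)) (hTq : ∀ n, Ty U (s n) (q n))
    (hLq : ∀ k m, k < m → Le U (L m) (q k)) (hD : ∀ n, Dens U C (L n) (q n)) (k l m : ℕ)
    (hk : k < m) (hl : l < m) :
    ∀ᶠ α in (U : Filter K), ∀ᶠ β in (U : Filter K), ∀ t, t ≤ L k α → t ≤ L l β → t ≤ p →
      ∀ᶠ γ in (U : Filter K), ∃ v, v ≤ t ∧ v ≤ L m γ ∧ v ∈ C α γ ∧ v ∈ C β γ := by
  classical
  by_contra hcon
  rw [← Ultrafilter.eventually_not] at hcon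
  let B : K → K → LC W K → Prop := fun α β t => t ≤ L k α ∧ t ≤ L l β ∧ t ≤ p ∧
    ∀ᶠ γ in (U : Filter K), ¬ ∃ v, v ≤ t ∧ v ≤ L m γ ∧ v ∈ C α γ ∧ v ∈ C β γ
  let t : K → K → LC W K := fun α β => if h : ∃ t, B α β t then h.choose else p
  have hB : ∀ᶠ α in (U : Filter K), ∀ᶠ β in (U : Filter K), B α β (t α β) := by
    filter_upwards [hcon] with α hα
    rw [← Ultrafilter.eventually_not] at hα
    filter_upwards [hα] with β hβ
    have h : ∃ t, B α β t := by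
      push Not at hβ
      obtain ⟨t1, h1, h2, h3, h4⟩ := hβ
      refine ⟨t1, h1, h2, h3, ?_⟩
      filter_upwards [h4] with γ hγ
      rintro ⟨v, hv1, hv2, hv3, hv4⟩
      exact hγ v hv1 hv2 hv3 hv4
    show B α β (if h : ∃ t, B α β t then h.choose else p)
    rw [dif_pos h]
    exact h.choose_spec
  choose τ hτ using fun α => exists_ty hN h0 hW (t α)
  obtain ⟨σ, hσ⟩ := exists_ty hN h0 hW τ
  have hτL : Le U τ (L k) := by
    filter_upwards [hB] with α hα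
    exact (hτ α).le_const hN h0 (hα.mono fun β hβ => hβ.1)
  have hτp : ∀ᶠ α in (U : Filter K), τ α ≤ p := by
    filter_upwards [hB] with α hα
    exact (hτ α).le_const hN h0 (hα.mono fun β hβ => hβ.2.2.1)
  have hσp : σ ≤ p := hσ.le_const hN h0 hτp
  have hσm : σ ≤ s m := hσp.trans (hp m)
  have hq'T := (hTL m).add hN h0 hσm
  have hq'le := (hTL m).add_le hN h0 hσm
  have hD1 := hD k τ (fun γ => add σ (L m γ)) σ hτL
    (Le.trans (hq'le.mono fun γ hγ => hγ.2) (hLq k m hk)) hσ hq'T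
  let u : K → K → LC W K := fun α γ =>
    if h : ∃ u, u ≤ τ α ∧ u ≤ add σ (L m γ) ∧ u ∈ C α γ then h.choose else p
  have hu : ∀ᶠ α in (U : Filter K), ∀ᶠ γ in (U : Filter K),
      u α γ ≤ τ α ∧ u α γ ≤ add σ (L m γ) ∧ u α γ ∈ C α γ := by
    filter_upwards [hD1] with α hα
    filter_upwards [hα] with γ hγ
    show (if h : ∃ u, u ≤ τ α ∧ u ≤ add σ (L m γ) ∧ u ∈ C α γ then h.choose else p) ≤ τ α ∧
      (if h : ∃ u, u ≤ τ α ∧ u ≤ add σ (L m γ) ∧ u ∈ C α γ then h.choose else p) ≤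
        add σ (L m γ) ∧
      (if h : ∃ u, u ≤ τ α ∧ u ≤ add σ (L m γ) ∧ u ∈ C α γ then h.choose else p) ∈ C α γ
    rw [dif_pos hγ]
    exact hγ.choose_spec
  obtain ⟨α, hα1, hα2⟩ := (hB.and hu).exists
  obtain ⟨ρ, hρ⟩ := exists_ty hN h0 hW (u α)
  have hρτ : ρ ≤ τ α := hρ.le_const hN h0 (hα2.mono fun γ hγ => hγ.1)
  have hL2T := (hτ α).add hN h0 hρτ
  have hL2le := (hτ α).add_le hN h0 hρτ
  have hD2 := hD l (fun β => add ρ (t α β)) (u α) ρ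
    (Le.trans (hL2le.mono fun β hβ => hβ.2) (hα1.mono fun β hβ => hβ.2.1))
    (by
      refine Le.trans ?_ (hLq l m hl)
      filter_upwards [hα2, hq'le] with γ h1 h2
      exact h1.2.1.trans h2.2) hL2T hρ
  obtain ⟨β, hβ1, hβ2, hβ3⟩ := (hα1.and (hD2.and hL2le)).exists
  obtain ⟨γ, hγ1, hγ2, hγ3, hγ4⟩ := (hβ1.2.2.2.and (hβ2.and (hα2.and hq'le))).exists
  obtain ⟨v, hv1, hv2, hv3⟩ := hγ2
  exact hγ1 ⟨v, hv1.trans hβ3.2, hv2.trans (hγ3.2.1.trans hγ4.2), hC _ _ _ hγ3.2.2 _ hv2, hv3⟩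

end Pool.Agent.H995R3
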