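import Pool.Agent.H995R3.Dense

set_option autoImplicit false

/-!
# The Levy collapse of a measurable cardinal forces the relation
-/

namespace Pool.Agent.H995R3

open Cardinal Pool.Agent.Helper669.Forcing Pool.Agent.Helper669.K

section

variable {κ : Cardinal.{0}} {P : Type} [Preorder P]

theorem fun_bdd (hreg : ∀ p : P, p ∈ StaysRegular P κ) {ν : Cardinal.{0}} (hν : ν < κ)
    (R : ν.out → κ.ord.ToType → Set P) (r : P) (hr : r ∈ IsFun R) :
    ∃ r' ≤ r, ∃ b : κ.ord.ToType, ∀ x y, ∀ t ≤ r', t ∈ meets (R x y) → y < b := by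
  have h1 := hreg r ν hν R
  rw [mem_fimp] at h1
  obtain ⟨r1, hr1, h2⟩ := h1 r le_rfl hr
  obtain ⟨r2, hr2, b, h3⟩ := mem_fex.1 h2 r1 le_rfl
  refine ⟨r2, hr2.trans hr1, b, fun x y t ht hm => ?_⟩
  obtain ⟨_, _, h4⟩ := mem_fimp.1 (h3 x y) t ht hm
  exact h4

theorem cover_bdd (hreg : ∀ p : P, p ∈ StaysRegular P κ) {ν : Cardinal.{0}} (hν : ν < κ)
    (C : κ.ord.ToType → Set P) (R : ν.out → κ.ord.ToType → Set P) (r : P)
    (hr : r ∈ fand (IsFun R) (fall fun y => fimp (meets (C y)) (fex fun x => meets (R x y)))) :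
    ∃ r' ≤ r, ∃ b : κ.ord.ToType, ∀ y, ∀ t ≤ r', t ∈ meets (C y) → y < b := by
  obtain ⟨r1, hr1, b, hb⟩ := fun_bdd hreg hν R r hr.1
  refine ⟨r1, hr1, b, fun y t ht hm => ?_⟩
  obtain ⟨t1, ht1, h1⟩ := mem_fimp.1 (hr.2 y) t (ht.trans hr1) hm
  obtain ⟨t2, ht2, x, h2⟩ := mem_fex.1 h1 t1 le_rfl
  exact hb x y t2 (ht2.trans (ht1.trans ht)) h2

theorem small_bdd (hreg : ∀ p : P, p ∈ StaysRegular P κ) (C : κ.ord.ToType → Set P) (r : P)
    (hr : r ∈ IsSmall C) :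
    ∃ r' ≤ r, ∃ b : κ.ord.ToType, ∀ y, ∀ t ≤ r', t ∈ meets (C y) → y < b := by
  obtain ⟨r1, hr1, ν, h1⟩ := mem_fex.1 hr r le_rfl
  obtain ⟨r2, hr2, hν, h2⟩ := mem_fex.1 h1 r1 le_rfl
  obtain ⟨r3, hr3, R, h3⟩ := mem_fex.1 h2 r2 le_rfl
  rw [Cardinal.mk_ord_toType] at hν
  obtain ⟨r', hr', b, hb⟩ := cover_bdd hreg hν C R r3 h3
  exact ⟨r', hr'.trans (hr3.trans (hr2.trans hr1)), b, hb⟩

end

theorem hc_below {κ : Cardinal.{0}} (h : IsMeasurable κ)
    (p : LC (ℵ₁ : Cardinal.{0}).ord.ToType κ.ord.ToType) :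
    p ∈ HcBelow (LC (ℵ₁ : Cardinal.{0}).ord.ToType κ.ord.ToType) κ.ord.ToType 3 := by
  classical
  obtain ⟨hκ, h2⟩ := regular_of_measurable h
  obtain ⟨U, hN⟩ := exists_normal h
  have h0 : ℵ₀ < κ := h.1
  have h20 : 2 ^ (ℵ₀ : Cardinal.{0}) < κ := h2 _ h0
  have h1 : ℵ₁ < κ := by
    refine lt_of_le_of_lt ?_ h20
    rw [← succ_aleph0]
    exact Order.succ_le_of_lt (cantor _)
  have hW : #(ℵ₁ : Cardinal.{0}).ord.ToType < κ := by
    rw [Cardinal.mk_ord_toType]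
    exact h1
  have hreg : ∀ p : LC (ℵ₁ : Cardinal.{0}).ord.ToType κ.ord.ToType, p ∈ StaysRegular _ κ :=
    staysRegular_of_cc' hκ (fun ι f hι => LC.cc hκ h2 h1 ι f hι)
  intro c
  rw [mem_fimp]
  intro q _ hq
  obtain ⟨i, L, qf, s, hs0, hsn, hTL, hTq, hLq, hD⟩ := exists_seq hN h0 hW
    (fun n α β => meets (c α β n)) (fun n α β => down_meets _) q (by
      intro t ht α β hαβ
      obtain ⟨r, hr, n, hn⟩ := mem_fex.1 (hq α β hαβ.ne).1 t ht
      exact ⟨r, hr, n, hn⟩)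
  let p1 : LC (ℵ₁ : Cardinal.{0}).ord.ToType κ.ord.ToType := iU s hsn
  have hp1 : ∀ n, p1 ≤ s n := fun n => iU_le s hsn n
  have hp1q : p1 ≤ q := (hp1 0).trans hs0
  -- the good pairs
  let Q : ℕ → ℕ → κ.ord.ToType → κ.ord.ToType → Prop := fun k l α β =>
    ∀ t, t ≤ L k α → t ≤ L l β → t ≤ p1 → ∀ᶠ γ in (U : Filter κ.ord.ToType),
      ∃ v, v ≤ t ∧ v ≤ L (max k l + 1) γ ∧ v ∈ meets (c α γ i) ∧ v ∈ meets (c β γ i)
  have hQ : ∀ k l, ∀ᶠ α in (U : Filter κ.ord.ToType), ∀ᶠ β in (U : Filter κ.ord.ToType),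
      Q k l α β := fun k l => common hN h0 hW (fun α β => meets (c α β i))
    (fun α β => down_meets _) L qf s p1 hp1 hTL hTq hLq hD k l (max k l + 1)
    (by omega) (by omega)
  let Y0 : κ.ord.ToType → Prop := fun α => ∀ kl : ℕ × ℕ, ∀ᶠ β in (U : Filter κ.ord.ToType),
    Q kl.1 kl.2 α β
  have hcnt : #(ℕ × ℕ) < κ := by
    rw [Cardinal.mk_denumerable]
    exact h0
  have hY0 : ∀ᶠ α in (U : Filter κ.ord.ToType), Y0 α :=
    hN.comp hcnt (fun (kl : ℕ × ℕ) α => ∀ᶠ β in (U : Filter κ.ord.ToType), Q kl.1 kl.2 α β)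
      fun kl => hQ kl.1 kl.2
  have hY1 : ∀ᶠ β in (U : Filter κ.ord.ToType), ∀ α < β, Y0 α → ∀ kl : ℕ × ℕ,
      Q kl.1 kl.2 α β := by
    refine hN.norm (fun α β => Y0 α → ∀ kl : ℕ × ℕ, Q kl.1 kl.2 α β) fun α => ?_
    by_cases hα : Y0 α
    · have h3 := hN.comp hcnt (fun (kl : ℕ × ℕ) β => Q kl.1 kl.2 α β) hα
      exact h3.mono fun β hβ _ => hβ
    · exact Filter.Eventually.of_forall fun β h => absurd h hα
  let Y : κ.ord.ToType → Prop := fun β => Y0 β ∧ ∀ α < β, Y0 α → ∀ kl : ℕ × ℕ,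
    Q kl.1 kl.2 α β
  have hY : ∀ᶠ α in (U : Filter κ.ord.ToType), Y α := hY0.and hY1
  let A : κ.ord.ToType → Set (LC (ℵ₁ : Cardinal.{0}).ord.ToType κ.ord.ToType) :=
    fun α => {r | Y α ∧ ∃ k, r ≤ L k α}
  refine ⟨p1, hp1q, ?_⟩
  refine mem_fex_of_mem A (down_fex _) ?_
  refine mem_fex_of_mem i (down_fand (down_fall fun _ => down_fall fun _ => down_fnot _)
    (down_fall fun _ => down_fimp _ _)) ?_
  -- the key fact
  have core : ∀ (b x y : κ.ord.ToType) (t : LC (ℵ₁ : Cardinal.{0}).ord.ToType κ.ord.ToType),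
      t ≤ p1 → x < y → t ∈ meets (A x) → t ∈ meets (A y) → ∃ γ, b < γ ∧ y < γ ∧
        ∃ v ≤ t, v ∈ meets (A γ) ∧ v ∈ meets (c x γ i) ∧ v ∈ meets (c y γ i) := by
    intro b x y t htp hxy hx hy
    obtain ⟨t1, ht1, s1, ⟨hYx, k, hk⟩, hs1⟩ := hx t le_rfl
    obtain ⟨t2, ht2, s2, ⟨hYy, l, hl⟩, hs2⟩ := hy t1 ht1
    have h3 := hYy.2 x hxy hYx.1 (k, l) t2 (ht2.trans (hs1.trans hk)) (hs2.trans hl)
      (ht2.trans (ht1.trans htp))
    obtain ⟨γ, ⟨v, hv1, hv2, hv3, hv4⟩, hγ1, hγ2, hγ3⟩ :=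
      (h3.and ((hN.big b).and ((hN.big y).and hY))).exists
    exact ⟨γ, hγ1, hγ2, v, hv1.trans (ht2.trans ht1), meets_of_mem ⟨hγ3, _, hv2⟩, hv3, hv4⟩
  refine ⟨?_, ?_⟩
  · intro ν hν q2 hq2 hcon
    rw [Cardinal.mk_ord_toType] at hν
    obtain ⟨r, hr, R, hR⟩ := mem_fex.1 hcon q2 le_rfl
    obtain ⟨r', hr', b, hb⟩ := cover_bdd hreg hν A R r hR
    have h3 : r' ≤ s 0 := hr'.trans (hr.trans (hq2.trans (hp1 0)))
    obtain ⟨α, hα1, hα2, hα3⟩ := (((hTL 0).add_le hN h0 h3).and ((hN.big b).and hY)).exists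
    exact absurd (hb α _ hα1.1 (meets_of_mem ⟨hα3, 0, hα1.2⟩)) (not_lt.2 hα2.le)
  · intro C
    rw [mem_fimp]
    intro q2 hq2 hC
    obtain ⟨r, hr, b, hb⟩ := small_bdd hreg C q2 hC.2
    refine ⟨r, hr, ?_⟩
    intro x y
    rw [mem_fimp]
    intro q3 hq3 hxy
    have hq3p : q3 ≤ p1 := hq3.trans (hr.trans hq2)
    -- finishing off with a common neighbour
    have fin : ∀ (γ : κ.ord.ToType) (v : LC (ℵ₁ : Cardinal.{0}).ord.ToType κ.ord.ToType),
        b < γ → x ≠ γ → y ≠ γ → v ≤ q3 → v ∈ meets (A γ) → v ∈ meets (c x γ i) →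
        v ∈ meets (c y γ i) → ∃ r ≤ q3, r ∈ (fex fun l : ℕ => fex fun _ : l < 3 =>
          fex fun γ : ℕ → κ.ord.ToType =>
            fand (fground (γ 0 = x ∧ γ l = y))
              (fand (fall fun k => fall fun _ : k ≤ l => InDiff A C (γ k))
                (fall fun j => fall fun _ : j < l =>
                  fand (fground (γ j ≠ γ (j + 1))) (meets (c (γ j) (γ (j + 1)) i))))) := by
      intro γ v hbγ hxγ hyγ hv hvA hvx hvy
      have hvq : v ≤ q := hv.trans (hq3p.trans hp1q)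
      obtain ⟨w, hw, hwy⟩ := mem_fimp.1 ((hq y γ hyγ).2.2 i) v hvq hvy
      refine ⟨w, hw.trans hv, ?_⟩
      refine mem_fex_of_mem 2 (down_fex _) ?_
      refine mem_fex_of_mem (by norm_num : 2 < 3) (down_fex _) ?_
      refine mem_fex_of_mem (fun k => if k = 0 then x else if k = 1 then γ else y) ?_ ?_
      · exact down_fand (down_fground _) (down_fand
          (down_fall fun _ => down_fall fun _ => down_fand (down_meets _) (down_fnot _))
          (down_fall fun _ => down_fall fun _ => down_fand (down_fground _) (down_meets _)))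
      · have hdiff : ∀ z, q3 ∈ InDiff A C z → w ∈ InDiff A C z := fun z hz =>
          down_fand (down_meets _) (down_fnot _) _ hz _ (hw.trans hv)
        refine ⟨⟨by simp, by simp⟩, ?_, ?_⟩
        · intro k hk
          rcases (by omega : k = 0 ∨ k = 1 ∨ k = 2) with rfl | rfl | rfl
          · exact hdiff x hxy.1
          · refine ⟨down_meets _ _ hvA _ hw, ?_⟩
            intro t ht htC
            exact absurd (hb γ t (ht.trans (hw.trans (hv.trans hq3))) htC) (not_lt.2 hbγ.le)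
          · exact hdiff y hxy.2
        · intro j hj
          rcases (by omega : j = 0 ∨ j = 1) with rfl | rfl
          · exact ⟨hxγ, down_meets _ _ hvx _ hw⟩
          · exact ⟨fun e => hyγ e.symm, hwy⟩
    rcases lt_trichotomy x y with hlt | heq | hlt
    · obtain ⟨γ, hγ1, hγ2, v, hv1, hv2, hv3, hv4⟩ := core b x y q3 hq3p hlt hxy.1.1 hxy.2.1
      exact fin γ v hγ1 (hlt.trans hγ2).ne hγ2.ne hv1 hv2 hv3 hv4
    · subst heq
      refine ⟨q3, le_rfl, ?_⟩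
      refine mem_fex_of_mem 0 (down_fex _) ?_
      refine mem_fex_of_mem (by norm_num : 0 < 3) (down_fex _) ?_
      refine mem_fex_of_mem (fun _ => x) ?_ ?_
      · exact down_fand (down_fground _) (down_fand
          (down_fall fun _ => down_fall fun _ => down_fand (down_meets _) (down_fnot _))
          (down_fall fun _ => down_fall fun _ => down_fand (down_fground _) (down_meets _)))
      · refine ⟨⟨rfl, rfl⟩, fun k _ => hxy.1, fun j hj => absurd hj (Nat.not_lt_zero j)⟩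
    · obtain ⟨γ, hγ1, hγ2, v, hv1, hv2, hv3, hv4⟩ := core b y x q3 hq3p hlt hxy.2.1 hxy.1.1
      exact fin γ v hγ1 hγ2.ne (hlt.trans hγ2).ne hv1 hv2 hv4 hv3

/-- all the facts about the collapse of a measurable cardinal -/
theorem collapse_facts {κ : Cardinal.{0}} (h : IsMeasurable κ)
    (p : LC (ℵ₁ : Cardinal.{0}).ord.ToType κ.ord.ToType) :
    p ∈ StaysRegular (LC (ℵ₁ : Cardinal.{0}).ord.ToType κ.ord.ToType) ℵ₁ ∧
    p ∈ StaysRegular (LC (ℵ₁ : Cardinal.{0}).ord.ToType κ.ord.ToType) κ ∧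
    p ∈ CollapsedBelow (LC (ℵ₁ : Cardinal.{0}).ord.ToType κ.ord.ToType) κ ∧
    p ∈ ForcesCH (LC (ℵ₁ : Cardinal.{0}).ord.ToType κ.ord.ToType) := by
  obtain ⟨hκ, h2⟩ := regular_of_measurable h
  have h20 : 2 ^ (ℵ₀ : Cardinal.{0}) < κ := h2 _ h.1
  have h1 : ℵ₁ < κ := by
    refine lt_of_le_of_lt ?_ h20
    rw [← succ_aleph0]
    exact Order.succ_le_of_lt (cantor _)
  refine ⟨?_, ?_, ?_, ?_⟩
  · exact staysRegular_proj isRegular_aleph_one
      (fun N D hN hd hdense q =>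
        exists_forall_mem aleph0_lt_aleph_one.le LC.dirClosed hN D hd hdense q)
      id (fun a b h => h) (fun a q' h => ⟨q', h, le_rfl⟩) (fun q' => ⟨q', le_rfl⟩) p
  · exact staysRegular_of_cc' hκ (fun ι f hι => LC.cc hκ h2 h1 ι f hι) p
  · exact LC.collapsed p
  · exact LC.forcesCH h20 p

end Pool.Agent.H995R3
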