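import Mathlib
import Pool.Agent.H348R6.GM1

set_option autoImplicit false

/-!
# The set-splitting game on large sets
-/

namespace Pool.Agent.H995R3.Split

open Pool.Agent.H348R6.GM

universe u

/-! ### Multiboard games -/

/-- ONE has a winning strategy in the game `GS_2(S, K)` (played with the symbols `true`, `false`
on the boards in `K`). -/
def MOneWins (K : Type u) (S : Set (ℕ → Bool)) : Prop :=
  ∃ F : (n : ℕ) → (Fin n → K → Bool) → K → Bool, ∀ y : ℕ → K → Bool, ∃ α : K,
    (fun m => if m % 2 = 0 then F (m / 2) (fun i => y i) α else y (m / 2) α) ∈ S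

/-- TWO has a winning strategy in the game `GS_2(S, K)`. -/
def MTwoWins (K : Type u) (S : Set (ℕ → Bool)) : Prop :=
  ∃ G : (n : ℕ) → (Fin n → K → Bool) → K → Bool, ∀ x : ℕ → K → Bool, ∀ α : K,
    (fun m => if m % 2 = 0 then x (m / 2) α else G (m / 2 + 1) (fun i => x i) α) ∉ S

theorem MTwoWins.mono {K : Type u} {S : Set (ℕ → Bool)} (h : MTwoWins Unit S) : MTwoWins K S := by
  obtain ⟨G, hG⟩ := h
  exact ⟨fun n f α => G n (fun i _ => f i α) (), fun x α => hG (fun n _ => x n α) ()⟩

section

variable {E : Type u} (τ : List (Move E) → Move E)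

/-- one round -/
def rnd (m : Move E) (a : Bool) (Y : E → Bool) : Move E :=
  ⟨if a then m.left else m.right, (if a then m.left else m.right) ∩ {e | Y e = true},
    (if a then m.left else m.right) \ {e | Y e = true}⟩

/-- the history in which A picks according to `a` and splits according to `y` -/
def H (y : ℕ → E → Bool) (a : ℕ → Bool) : ℕ → List (Move E)
  | 0 => [⟨Set.univ, Set.univ, ∅⟩]
  | n + 1 => (H y a n ++ [τ (H y a n)]) ++ [rnd (τ (H y a n)) (a n) (y n)]

open Classical in
/-- the history seen on the board `e` -/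
noncomputable def HE (y : ℕ → E → Bool) (e : E) : ℕ → List (Move E)
  | 0 => [⟨Set.univ, Set.univ, ∅⟩]
  | n + 1 => (HE y e n ++ [τ (HE y e n)]) ++
      [rnd (τ (HE y e n)) (decide (e ∈ (τ (HE y e n)).left)) (y n)]

theorem H_congr {y : ℕ → E → Bool} {a a' : ℕ → Bool} {n : ℕ} (h : ∀ i < n, a i = a' i) :
    H τ y a n = H τ y a' n := by
  induction n with
  | zero => rfl
  | succ n ih =>
    rw [H, H, ih fun i hi => h i (by omega), h n (by omega)]

theorem HE_congr {y y' : ℕ → E → Bool} {e : E} {n : ℕ} (h : ∀ i < n, y i = y' i) :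
    HE τ y e n = HE τ y' e n := by
  induction n with
  | zero => rfl
  | succ n ih =>
    rw [HE, HE, ih fun i hi => h i (by omega), h n (by omega)]

theorem H_length (y : ℕ → E → Bool) (a : ℕ → Bool) (n : ℕ) : (H τ y a n).length = 2 * n + 1 := by
  induction n with
  | zero => rfl
  | succ n ih =>
    rw [H, List.length_append, List.length_append, ih]
    simp
    ring

/-- the run -/
def run (y : ℕ → E → Bool) (a : ℕ → Bool) (n : ℕ) : Move E :=
  if n % 2 = 0 then
    (if n = 0 then ⟨Set.univ, Set.univ, ∅⟩ else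
      rnd (τ (H τ y a (n / 2 - 1))) (a (n / 2 - 1)) (y (n / 2 - 1)))
  else τ (H τ y a (n / 2))

theorem run_zero (y : ℕ → E → Bool) (a : ℕ → Bool) :
    run τ y a 0 = ⟨Set.univ, Set.univ, ∅⟩ := rfl

theorem run_odd (y : ℕ → E → Bool) (a : ℕ → Bool) (n : ℕ) :
    run τ y a (2 * n + 1) = τ (H τ y a n) := by
  have h1 : ¬ (2 * n + 1) % 2 = 0 := by omega
  have h2 : (2 * n + 1) / 2 = n := by omega
  simp only [run, h1, h2, if_false]

theorem run_even (y : ℕ → E → Bool) (a : ℕ → Bool) (n : ℕ) :
    run τ y a (2 * n + 2) = rnd (τ (H τ y a n)) (a n) (y n) := by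
  have h1 : (2 * n + 2) % 2 = 0 := by omega
  have h2 : (2 * n + 2) / 2 - 1 = n := by omega
  have h3 : ¬ 2 * n + 2 = 0 := by omega
  simp only [run, h1, h2, h3, if_true, if_false]

theorem hist_run (y : ℕ → E → Bool) (a : ℕ → Bool) (n : ℕ) :
    hist (run τ y a) (2 * n + 1) = H τ y a n := by
  induction n with
  | zero => simp [hist, H, run_zero]
  | succ n ih =>
    rw [show 2 * (n + 1) + 1 = (2 * n + 1 + 1) + 1 by ring, hist_succ, hist_succ, ih, run_odd,
      show 2 * n + 1 + 1 = 2 * n + 2 by ring, run_even, H]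

end

/-- If B wins the set-splitting game on `E`, then all multiboard games with two symbols and with
the set `E` of boards are determined. -/
theorem determined_of_BWins {E : Type u} (h : BWins E) (S : Set (ℕ → Bool)) :
    MOneWins E S ∨ MTwoWins E S := by
  classical
  by_cases h1 : MTwoWins Unit S
  · exact Or.inr h1.mono
  left
  obtain ⟨τ, hτ⟩ := h
  let ex : (n : ℕ) → (Fin n → E → Bool) → ℕ → E → Bool := fun n f i =>
    if h : i < n then f ⟨i, h⟩ else fun _ => false
  refine ⟨fun n f e => decide (e ∈ (τ (HE τ (ex n f) e n)).left), fun y => ?_⟩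
  have hex : ∀ n, ∀ e, HE τ (ex n fun i => y i) e n = HE τ y e n := fun n e =>
    HE_congr τ fun i hi => by simp [ex, hi]
  -- the strategy of TWO on one board
  let ea : (n : ℕ) → (Fin n → Unit → Bool) → ℕ → Bool := fun n f i =>
    if h : i < n then f ⟨i, h⟩ () else false
  let β : ℕ → (ℕ → Bool) → Bool := fun n a =>
    decide ((τ (H τ y a (n + 1))).chosen = (rnd (τ (H τ y a n)) (a n) (y n)).left)
  have hβ : ∀ n a a', (∀ i < n + 1, a i = a' i) → β n a = β n a' := by
    intro n a a' haa
    simp only [β]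
    rw [H_congr τ haa, H_congr τ (n := n) fun i hi => haa i (by omega), haa n (by omega)]
  have h2 := h1
  unfold MTwoWins at h2
  push Not at h2
  obtain ⟨x, _, hx⟩ := h2 fun n f _ => β (n - 1) (ea n f)
  let a : ℕ → Bool := fun n => x n ()
  have hx' : (fun m => if m % 2 = 0 then a (m / 2) else β (m / 2) a) ∈ S := by
    convert hx using 2 with m
    split_ifs with hm
    · rfl
    · rw [Nat.add_sub_cancel]
      apply hβ
      intro i hi
      simp [ea, hi, a]
  -- the run
  obtain ⟨hleg, e, he⟩ := hτ (run τ y a) (by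
    intro n hn
    obtain ⟨k, rfl⟩ := hn
    rcases Nat.eq_zero_or_pos k with rfl | hk
    · refine ⟨⟨?_, ?_⟩, fun _ => ?_, fun m hm => by omega⟩
      · show Set.univ ∪ ∅ = Set.univ
        simp
      · show Disjoint Set.univ ∅
        simp
      · rfl
    · obtain ⟨j, rfl⟩ : ∃ j, k = j + 1 := ⟨k - 1, by omega⟩
      rw [show j + 1 + (j + 1) = 2 * j + 2 by ring]
      unfold LegalAt
      rw [run_even]
      refine ⟨⟨Set.inter_union_sdiff _ _, Set.disjoint_sdiff_right.mono_left
        Set.inter_subset_right⟩, fun h => by omega, fun m hm => ?_⟩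
      have : m = 2 * j + 1 := by omega
      subst this
      rw [run_odd]
      show (if a j = true then (τ (H τ y a j)).left else (τ (H τ y a j)).right) = _ ∨ _
      cases a j
      · right; rfl
      · left; rfl) (by
    intro n hn
    obtain ⟨k, rfl⟩ := hn
    rw [run_odd, hist_run])
  rw [Set.mem_iInter] at he
  have hchosen : ∀ n, e ∈ (if a n = true then (τ (H τ y a n)).left else (τ (H τ y a n)).right) := by
    intro n
    have := he (2 * n + 1)
    rw [show 2 * n + 1 + 1 = 2 * n + 2 by ring, run_even] at this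
    exact this
  have hdisj : ∀ n, Disjoint (τ (H τ y a n)).left (τ (H τ y a n)).right := by
    intro n
    have := (hleg (2 * n + 1)).1.2
    rw [run_odd] at this
    exact this
  have ha : ∀ n, a n = decide (e ∈ (τ (H τ y a n)).left) := by
    intro n
    have h3 := hchosen n
    cases h4 : a n
    · rw [h4] at h3
      symm
      rw [decide_eq_false_iff_not]
      intro h5
      exact Set.disjoint_left.1 (hdisj n) h5 h3
    · rw [h4] at h3
      symm
      rw [decide_eq_true_iff]
      exact h3
  have hHE : ∀ n, HE τ y e n = H τ y a n := by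
    intro n
    induction n with
    | zero => rfl
    | succ n ih => rw [HE, H, ih, ← ha n]
  have hb : ∀ n, y n e = β n a := by
    intro n
    have h3 := he (2 * n + 2)
    rw [show 2 * n + 2 + 1 = 2 * (n + 1) + 1 by ring, run_odd] at h3
    have h4 := (hleg (2 * (n + 1) + 1)).2.2 (2 * n + 2) (by ring)
    rw [run_odd, run_even] at h4
    have h5 := (hleg (2 * n + 2)).1.2
    rw [run_even] at h5
    simp only [β]
    by_cases h6 : (τ (H τ y a (n + 1))).chosen = (rnd (τ (H τ y a n)) (a n) (y n)).left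
    · rw [decide_eq_true h6]
      rw [h6] at h3
      exact h3.2
    · rw [decide_eq_false h6]
      rcases h4 with h4 | h4
      · exact absurd h4 h6
      · rw [h4] at h3
        have := h3.2
        simpa using this
  refine ⟨e, ?_⟩
  convert hx' using 2 with m
  split_ifs with hm
  · show decide (e ∈ (τ (HE τ (ex (m / 2) fun i => y i) e (m / 2))).left) = a (m / 2)
    rw [hex, hHE, ← ha]
  · exact hb _

/-! ### Ideals with a countably closed dense family of positive sets -/

/-- `J` is a proper ideal of subsets of `E`, every positive set splits into two positive sets, and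
`D` is a dense family of positive sets such that decreasing sequences of members of `D` have
positive (in particular nonempty) intersections. -/
structure LaverIdeal {E : Type u} (J D : Set (Set E)) : Prop where
  empty_mem : ∅ ∈ J
  univ_notMem : Set.univ ∉ J
  mono : ∀ X Y, X ⊆ Y → Y ∈ J → X ∈ J
  union : ∀ X Y, X ∈ J → Y ∈ J → X ∪ Y ∈ J
  split : ∀ X, X ∉ J → ∃ Y ⊆ X, Y ∉ J ∧ X \ Y ∉ J
  pos : ∀ X ∈ D, X ∉ J
  dense : ∀ X, X ∉ J → ∃ Z ∈ D, Z ⊆ X
  closed : ∀ X : ℕ → Set E, (∀ n, X n ∈ D) → (∀ n, X (n + 1) ⊆ X n) → (⋂ n, X n) ∉ J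

theorem LaverIdeal.choice {E : Type u} {J D : Set (Set E)} (h : LaverIdeal J D) (Z Y : Set E)
    (hZ : Z ∈ D) : ∃ U ∈ D, ∃ W ∈ D, U ⊆ Z ∧ W ⊆ Z ∧ Disjoint U W ∧
      (U ∪ W ⊆ Y ∨ Disjoint (U ∪ W) Y) := by
  have h1 : Z ∩ Y ∉ J ∨ Z \ Y ∉ J := by
    by_contra hcon
    push Not at hcon
    apply h.pos Z hZ
    have := h.union _ _ hcon.1 hcon.2
    rwa [Set.inter_union_sdiff] at this
  have h2 : ∀ A : Set E, A ∉ J → ∃ U ∈ D, ∃ W ∈ D, U ⊆ A ∧ W ⊆ A ∧ Disjoint U W := by
    intro A hA
    obtain ⟨B, hB, h3, h4⟩ := h.split A hA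
    obtain ⟨U, hU, hUB⟩ := h.dense _ h3
    obtain ⟨W, hW, hWB⟩ := h.dense _ h4
    exact ⟨U, hU, W, hW, hUB.trans hB, hWB.trans Set.sdiff_subset,
      Set.disjoint_of_subset hUB hWB Set.disjoint_sdiff_right⟩
  rcases h1 with h1 | h1
  · obtain ⟨U, hU, W, hW, h3, h4, h5⟩ := h2 _ h1
    exact ⟨U, hU, W, hW, h3.trans Set.inter_subset_left, h4.trans Set.inter_subset_left, h5,
      Or.inl (Set.union_subset (h3.trans Set.inter_subset_right) (h4.trans Set.inter_subset_right))⟩
  · obtain ⟨U, hU, W, hW, h3, h4, h5⟩ := h2 _ h1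
    refine ⟨U, hU, W, hW, h3.trans Set.sdiff_subset, h4.trans Set.sdiff_subset, h5, Or.inr ?_⟩
    exact Set.disjoint_of_subset_left (Set.union_subset h3 h4) Set.disjoint_sdiff_left

open Classical in
/-- An ideal with a countably closed dense family of positive sets gives B a winning strategy. -/
theorem BWins_of_LaverIdeal {E : Type u} {J D : Set (Set E)} (h : LaverIdeal J D) : BWins E := by
  have hch : ∀ Z Y : Set E, ∃ p : Set E × Set E, Z ∈ D → (p.1 ∈ D ∧ p.2 ∈ D ∧ p.1 ⊆ Z ∧ p.2 ⊆ Z ∧
      Disjoint p.1 p.2 ∧ (p.1 ∪ p.2 ⊆ Y ∨ Disjoint (p.1 ∪ p.2) Y)) := by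
    intro Z Y
    by_cases hZ : Z ∈ D
    · obtain ⟨U, hU, W, hW, h1, h2, h3, h4⟩ := h.choice Z Y hZ
      exact ⟨(U, W), fun _ => ⟨hU, hW, h1, h2, h3, h4⟩⟩
    · exact ⟨(∅, ∅), fun h => absurd h hZ⟩
  choose ch hch using hch
  obtain ⟨Z₀, hZ₀, _⟩ := h.dense _ h.univ_notMem
  -- the state: parity, the two sets, the last move of B
  let sel : Set E × Set E × Move E → Move E → Set E := fun s m =>
    if m.chosen = s.2.2.left then s.1 else s.2.1
  let part : Set E × Set E × Move E → Move E → Set E := fun s m =>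
    if (ch (sel s m) m.left).1 ∪ (ch (sel s m) m.left).2 ⊆ m.left then m.left else m.right
  let step : Set E × Set E × Move E → Move E → Set E × Set E × Move E := fun s m =>
    ((ch (sel s m) m.left).1, (ch (sel s m) m.left).2,
      ⟨part s m, part s m \ (ch (sel s m) m.left).2, part s m ∩ (ch (sel s m) m.left).2⟩)
  let f : Bool × Set E × Set E × Move E → Move E → Bool × Set E × Set E × Move E := fun s m =>
    if s.1 then (false, step s.2 m) else (true, s.2)
  let init : Bool × Set E × Set E × Move E := (true, Z₀, Z₀, ⟨Set.univ, Set.univ, ∅⟩)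
  let st : List (Move E) → Bool × Set E × Set E × Move E := fun l => l.foldl f init
  refine ⟨fun l => (st l).2.2.2, fun x hA hB => ?_⟩
  have hst0 : st (hist x 0) = init := rfl
  have hst : ∀ n, st (hist x (n + 1)) = f (st (hist x n)) (x n) := by
    intro n
    simp only [st, hist_succ, List.foldl_append, List.foldl_cons, List.foldl_nil]
  have hpar : ∀ n, (st (hist x n)).1 = decide (Even n) := by
    intro n
    induction n with
    | zero => simp [hst0, init]
    | succ n ih =>
      rw [hst]
      simp only [f]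
      by_cases hn : Even n
      · rw [ih, decide_eq_true hn]
        simp [Nat.even_add_one, hn]
      · rw [ih, decide_eq_false hn]
        simp [Nat.even_add_one, hn]
  have hodd : ∀ k, (st (hist x (2 * k + 1))).2 = step (st (hist x (2 * k))).2 (x (2 * k)) := by
    intro k
    rw [hst]
    have h1 : (st (hist x (2 * k))).1 = true := by rw [hpar]; simp
    simp only [f, h1, if_true]
  have heven : ∀ k, (st (hist x (2 * k + 2))).2 = (st (hist x (2 * k + 1))).2 := by
    intro k
    rw [hst]
    have h1 : (st (hist x (2 * k + 1))).1 = false := by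
      rw [hpar]
      simp [Nat.even_add_one]
    simp [f, h1]
  have hxB : ∀ k, x (2 * k + 1) = (st (hist x (2 * k + 1))).2.2.2 := fun k => hB _ ⟨k, rfl⟩
  let Z : ℕ → Set E := fun k => sel (st (hist x (2 * k))).2 (x (2 * k))
  -- the invariant
  have key : ∀ k, Z k ∈ D → Z k ⊆ (x (2 * k)).chosen →
      LegalAt x (2 * k + 1) ∧ Z (k + 1) ∈ D ∧ Z (k + 1) ⊆ Z k ∧ Z (k + 1) ⊆ (x (2 * k + 1)).chosen ∧
        Z (k + 1) ⊆ (x (2 * (k + 1))).chosen := by
    intro k hk1 hk2
    obtain ⟨c1, c2, c3, c4, c5, c6⟩ := hch (Z k) (x (2 * k)).left hk1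
    set U := (ch (Z k) (x (2 * k)).left).1 with hU
    set W := (ch (Z k) (x (2 * k)).left).2 with hW
    have hs1 : (st (hist x (2 * k + 1))).2.1 = U := by rw [hodd]
    have hs2 : (st (hist x (2 * k + 1))).2.2.1 = W := by rw [hodd]
    let p : Set E := if U ∪ W ⊆ (x (2 * k)).left then (x (2 * k)).left else (x (2 * k)).right
    have hs3 : x (2 * k + 1) = ⟨p, p \ W, p ∩ W⟩ := by
      rw [hxB, hodd]
    have hA' := hA (2 * k) (by simp)
    have hpUW : U ∪ W ⊆ p := by
      by_cases h6 : U ∪ W ⊆ (x (2 * k)).left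
      · simp only [p, if_pos h6]
        exact h6
      · simp only [p, if_neg h6]
        rcases c6 with c6 | c6
        · exact absurd c6 h6
        · intro e he
          have h7 : e ∈ (x (2 * k)).chosen := by
            apply hk2
            rcases he with he | he
            · exact c3 he
            · exact c4 he
          rw [← hA'.1.1] at h7
          rcases h7 with h7 | h7
          · exact absurd h7 (Set.disjoint_left.1 c6 he)
          · exact h7
    have hleg : LegalAt x (2 * k + 1) := by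
      unfold LegalAt
      rw [hs3]
      refine ⟨⟨Set.sdiff_union_inter _ _, Set.disjoint_sdiff_left.mono_right
        Set.inter_subset_right⟩, fun h => by omega, fun m hm => ?_⟩
      have : m = 2 * k := by omega
      subst this
      simp only [p]
      split_ifs
      · exact Or.inl rfl
      · exact Or.inr rfl
    have hZ' : Z (k + 1) = if (x (2 * (k + 1))).chosen = p \ W then U else W := by
      show sel (st (hist x (2 * (k + 1)))).2 (x (2 * (k + 1))) = _
      rw [show 2 * (k + 1) = 2 * k + 2 by ring, heven]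
      simp only [sel, hs1, hs2, ← hxB, hs3]
    have hA'' := (hA (2 * (k + 1)) (by simp)).2.2 (2 * k + 1) (by ring)
    rw [hs3] at hA''
    refine ⟨hleg, ?_, ?_, ?_, ?_⟩
    · rw [hZ']
      split_ifs
      · exact c1
      · exact c2
    · rw [hZ']
      split_ifs
      · exact c3
      · exact c4
    · rw [hZ', hs3]
      split_ifs
      · exact Set.subset_union_left.trans hpUW
      · exact Set.subset_union_right.trans hpUW
    · rw [hZ']
      split_ifs with h8
      · rw [h8]
        exact fun e he => ⟨hpUW (Or.inl he), fun hw => Set.disjoint_left.1 c5 he hw⟩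
      · rcases hA'' with h9 | h9
        · exact absurd h9 h8
        · rw [h9]
          exact fun e he => ⟨hpUW (Or.inr he), he⟩
  have hZ0 : Z 0 ∈ D ∧ Z 0 ⊆ (x (2 * 0)).chosen := by
    have h1 : (x 0).chosen = Set.univ := (hA 0 (by simp)).2.1 rfl
    refine ⟨?_, ?_⟩
    · show sel init.2 (x 0) ∈ D
      simp only [sel, init]
      split_ifs <;> exact hZ₀
    · show _ ⊆ (x 0).chosen
      rw [h1]
      exact Set.subset_univ _
  have hZ : ∀ k, Z k ∈ D ∧ Z k ⊆ (x (2 * k)).chosen := by
    intro k
    induction k with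
    | zero => exact hZ0
    | succ k ih =>
      obtain ⟨_, h1, _, _, h2⟩ := key k ih.1 ih.2
      exact ⟨h1, h2⟩
  refine ⟨fun n => ?_, ?_⟩
  · rcases Nat.even_or_odd n with hn | hn
    · exact hA n hn
    · obtain ⟨k, rfl⟩ := hn
      exact (key k (hZ k).1 (hZ k).2).1
  · have h1 := h.closed Z (fun k => (hZ k).1) fun k => (key k (hZ k).1 (hZ k).2).2.2.1
    obtain ⟨e, he⟩ : (⋂ k, Z k).Nonempty := by
      rw [Set.nonempty_iff_ne_empty]
      intro h2
      rw [h2] at h1
      exact h1 h.empty_mem
    rw [Set.mem_iInter] at he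
    refine ⟨e, Set.mem_iInter.2 fun n => ?_⟩
    rcases Nat.even_or_odd (n + 1) with hn | hn
    · obtain ⟨k, hk⟩ := hn
      rw [hk, show k + k = 2 * k by ring]
      exact (hZ k).2 (he k)
    · obtain ⟨k, hk⟩ := hn
      rw [hk]
      exact (key k (hZ k).1 (hZ k).2).2.2.2.1 (he (k + 1))

/-- Such an ideal is transported to larger sets. -/
theorem LaverIdeal.map {E : Type u} {E' : Type u} {J D : Set (Set E)} (h : LaverIdeal J D)
    (i : E ↪ E') : LaverIdeal {X : Set E' | i ⁻¹' X ∈ J} ((fun Z => i '' Z) '' D) where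
  empty_mem := by
    show i ⁻¹' ∅ ∈ J
    rw [Set.preimage_empty]
    exact h.empty_mem
  univ_notMem := by
    show ¬ i ⁻¹' Set.univ ∈ J
    rw [Set.preimage_univ]
    exact h.univ_notMem
  mono X Y hXY hY := h.mono _ _ (Set.preimage_mono hXY) hY
  union X Y hX hY := by
    show i ⁻¹' (X ∪ Y) ∈ J
    rw [Set.preimage_union]
    exact h.union _ _ hX hY
  split X hX := by
    obtain ⟨Y, hY, h1, h2⟩ := h.split (i ⁻¹' X) hX
    refine ⟨i '' Y, Set.image_subset_iff.2 hY, ?_, ?_⟩
    · show ¬ i ⁻¹' (i '' Y) ∈ J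
      rw [Set.preimage_image_eq _ i.injective]
      exact h1
    · show ¬ i ⁻¹' (X \ i '' Y) ∈ J
      rw [Set.preimage_sdiff, Set.preimage_image_eq _ i.injective]
      exact h2
  pos X hX := by
    obtain ⟨Z, hZ, rfl⟩ := hX
    show ¬ i ⁻¹' (i '' Z) ∈ J
    rw [Set.preimage_image_eq _ i.injective]
    exact h.pos Z hZ
  dense X hX := by
    obtain ⟨Z, hZ, hZX⟩ := h.dense _ hX
    exact ⟨i '' Z, ⟨Z, hZ, rfl⟩, Set.image_subset_iff.2 hZX⟩
  closed X hX hdec := by
    choose Z hZ hZX using hX
    have h1 : ∀ n, i ⁻¹' X n = Z n := fun n => by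
      rw [← hZX n]
      exact Set.preimage_image_eq _ i.injective
    have h2 := h.closed Z hZ fun n => by
      rw [← h1, ← h1]
      exact Set.preimage_mono (hdec n)
    show ¬ i ⁻¹' (⋂ n, X n) ∈ J
    rw [Set.preimage_iInter]
    simp only [h1]
    exact h2

end Pool.Agent.H995R3.Split
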