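import Pool.Agent.H995R3.Defs

set_option autoImplicit false

/-!
# Functions from a normal ultrafilter into the Levy collapse, and their stems
-/

namespace Pool.Agent.H995R3

open Cardinal Pool.Agent.Helper669.Forcing Pool.Agent.Helper669.K

variable {κ : Cardinal.{0}} {K W : Type} [LinearOrder K] {U : Ultrafilter K}

/-- the union of the two conditions is a function -/
def Cp (p q : LC W K) : Prop :=
  ∀ β ξ γ γ', (β, ξ, γ) ∈ p.g → (β, ξ, γ') ∈ q.g → γ = γ'

/-- the union of two conditions -/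
def uni (p q : LC W K) (h : Cp p q) : LC W K where
  g := p.g ∪ q.g
  cnt := p.cnt.union q.cnt
  fn := by
    rintro β ξ γ γ' (h1 | h1) (h2 | h2)
    · exact p.fn _ _ _ _ h1 h2
    · exact h _ _ _ _ h1 h2
    · exact (h _ _ _ _ h2 h1).symm
    · exact q.fn _ _ _ _ h1 h2
  val := by
    rintro β ξ γ (h1 | h1)
    · exact p.val _ _ _ h1
    · exact q.val _ _ _ h1

open Classical in
/-- the union if it is a condition -/
noncomputable def add (p q : LC W K) : LC W K := if h : Cp p q then uni p q h else q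

theorem add_g {p q : LC W K} (h : Cp p q) : (add p q).g = p.g ∪ q.g := by
  unfold add
  rw [dif_pos h]
  rfl

theorem add_le_left {p q : LC W K} (h : Cp p q) : add p q ≤ p := by
  rw [LC.le_iff, add_g h]
  exact Set.subset_union_left

theorem add_le_right {p q : LC W K} (h : Cp p q) : add p q ≤ q := by
  rw [LC.le_iff, add_g h]
  exact Set.subset_union_right

/-- the part of a condition below `α` -/
def cut (p : LC W K) (α : K) : Set (K × W × K) := {x | x ∈ p.g ∧ x.1 < α}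

/-- the function `h` has the stem `s` -/
def Ty (U : Ultrafilter K) (s : LC W K) (h : K → LC W K) : Prop :=
  ∀ᶠ α in (U : Filter K), cut (h α) α = s.g

theorem ev_bdd (hN : Nrm κ U) (h0 : ℵ₀ < κ) (p : LC W K) :
    ∀ᶠ α in (U : Filter K), ∀ x ∈ p.g, x.1 < α := by
  have h1 : #p.g < κ := (Cardinal.le_aleph0_iff_set_countable.2 p.cnt).trans_lt h0
  have h2 := hN.comp h1 (fun (x : p.g) α => x.1.1 < α) (fun x => hN.big _)
  filter_upwards [h2] with α hα x hx
  exact hα ⟨x, hx⟩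

theorem const_reg (hN : Nrm κ U) (g : K → K) (h : ∀ᶠ α in (U : Filter K), g α < α) :
    ∃ a, ∀ᶠ α in (U : Filter K), g α = a := by
  by_contra hcon
  have hcon' : ∀ a, ∀ᶠ α in (U : Filter K), g α ≠ a := by
    intro a
    by_contra h1
    apply hcon
    refine ⟨a, ?_⟩
    rw [← Ultrafilter.eventually_not] at h1
    filter_upwards [h1] with α hα
    exact not_not.1 hα
  obtain ⟨α, h1, h2⟩ := ((hN.norm (fun a α => g α ≠ a) hcon').and h).exists
  exact h1 (g α) h2 rfl

theorem const_small (hN : Nrm κ U) {T : Type} (hT : #T < κ) (g : K → T) :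
    ∃ t, ∀ᶠ α in (U : Filter K), g α = t := by
  by_contra hcon
  have hcon' : ∀ a, ∀ᶠ α in (U : Filter K), g α ≠ a := by
    intro a
    by_contra h1
    apply hcon
    refine ⟨a, ?_⟩
    rw [← Ultrafilter.eventually_not] at h1
    filter_upwards [h1] with α hα
    exact not_not.1 hα
  obtain ⟨α, h1⟩ := (hN.comp hT (fun a α => g α ≠ a) hcon').exists
  exact h1 (g α) rfl

theorem exists_enum {T : Type} (S : Set T) (hS : S.Countable) :
    ∃ f : ℕ → Option T, S = {x | ∃ n, f n = some x} := by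
  rcases S.eq_empty_or_nonempty with h | h
  · refine ⟨fun _ => none, ?_⟩
    subst h
    ext x
    simp
  · obtain ⟨f, hf⟩ := hS.exists_eq_range h
    refine ⟨fun n => some (f n), ?_⟩
    rw [hf]
    ext x
    simp

theorem exists_ty (hN : Nrm κ U) (h0 : ℵ₀ < κ) (hW : #W < κ) (h : K → LC W K) :
    ∃ s : LC W K, Ty U s h := by
  choose f hf using fun α => exists_enum (cut (h α) α) ((h α).cnt.mono fun x hx => hx.1)
  have hv : ∀ n, ∃ v : Option (K × W × K), ∀ᶠ α in (U : Filter K), f α n = v := by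
    intro n
    by_cases hn : ∀ᶠ α in (U : Filter K), f α n = none
    · exact ⟨none, hn⟩
    · rw [← Ultrafilter.eventually_not] at hn
      obtain ⟨α0, hα0⟩ := hn.exists
      obtain ⟨x0, hx0⟩ := Option.ne_none_iff_exists'.1 hα0
      have he : ∀ᶠ α in (U : Filter K), f α n = some ((f α n).getD x0) ∧
          ((f α n).getD x0) ∈ cut (h α) α := by
        filter_upwards [hn] with α hα
        obtain ⟨x, hx⟩ := Option.ne_none_iff_exists'.1 hα
        rw [hx]
        refine ⟨rfl, ?_⟩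
        rw [hf α]
        exact ⟨n, hx⟩
      obtain ⟨a, ha⟩ := const_reg hN (fun α => ((f α n).getD x0).1) (by
        filter_upwards [he] with α hα
        exact hα.2.2)
      obtain ⟨c, hc⟩ := const_reg hN (fun α => ((f α n).getD x0).2.2) (by
        filter_upwards [he] with α hα
        exact ((h α).val _ _ _ hα.2.1).trans hα.2.2)
      obtain ⟨w, hw⟩ := const_small hN hW (fun α => ((f α n).getD x0).2.1)
      refine ⟨some (a, w, c), ?_⟩
      filter_upwards [he, ha, hc, hw] with α h1 h2 h3 h4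
      rw [h1.1, ← h2, ← h3, ← h4]
  choose v hv using hv
  have hall : ∀ᶠ α in (U : Filter K), ∀ n, f α n = v n :=
    hN.comp (by rw [Cardinal.mk_nat]; exact h0) (fun n α => f α n = v n) hv
  have hS : ∀ᶠ α in (U : Filter K), cut (h α) α = {x | ∃ n, v n = some x} := by
    filter_upwards [hall] with α hα
    rw [hf α]
    simp only [hα]
  obtain ⟨α0, hα0⟩ := hS.exists
  refine ⟨⟨{x | ∃ n, v n = some x}, ?_, ?_, ?_⟩, hS⟩
  · rw [← hα0]
    exact (h α0).cnt.mono fun x hx => hx.1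
  · rw [← hα0]
    intro β ξ γ γ' h1 h2
    exact (h α0).fn _ _ _ _ h1.1 h2.1
  · rw [← hα0]
    intro β ξ γ h1
    exact (h α0).val _ _ _ h1.1

theorem Ty.le {s s' : LC W K} {h h' : K → LC W K} (H : Ty U s h) (H' : Ty U s' h')
    (hle : ∀ᶠ α in (U : Filter K), h' α ≤ h α) : s' ≤ s := by
  obtain ⟨α, h1, h2, h3⟩ := (H.and (H'.and hle)).exists
  rw [LC.le_iff, ← h1, ← h2]
  exact fun x hx => ⟨h3 hx.1, hx.2⟩

theorem Ty.le_const (hN : Nrm κ U) (h0 : ℵ₀ < κ) {s r : LC W K} {h : K → LC W K}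
    (H : Ty U s h) (hle : ∀ᶠ α in (U : Filter K), h α ≤ r) : s ≤ r := by
  obtain ⟨α, h1, h2, h3⟩ := (H.and (hle.and (ev_bdd hN h0 r))).exists
  rw [LC.le_iff, ← h1]
  exact fun x hx => ⟨h2 hx, h3 x hx⟩

theorem Ty.h_le {s : LC W K} {h : K → LC W K} (H : Ty U s h) :
    ∀ᶠ α in (U : Filter K), h α ≤ s := by
  filter_upwards [H] with α hα
  rw [LC.le_iff, ← hα]
  exact fun x hx => hx.1

theorem Ty.congr {s : LC W K} {h : K → LC W K} {s' : LC W K} (H : Ty U s h) (h' : s'.g = s.g) :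
    Ty U s' h := by
  filter_upwards [H] with α hα
  rw [hα, h']

theorem Ty.cp (hN : Nrm κ U) (h0 : ℵ₀ < κ) {s q : LC W K} {h : K → LC W K}
    (H : Ty U s h) (hq : q ≤ s) : ∀ᶠ α in (U : Filter K), Cp q (h α) := by
  filter_upwards [H, ev_bdd hN h0 q] with α hα hb β ξ γ γ' h1 h2
  have h3 : (β, ξ, γ') ∈ cut (h α) α := ⟨h2, hb (β, ξ, γ) h1⟩
  rw [hα] at h3
  exact q.fn _ _ _ _ h1 (hq h3)

theorem Ty.add (hN : Nrm κ U) (h0 : ℵ₀ < κ) {s q : LC W K} {h : K → LC W K}
    (H : Ty U s h) (hq : q ≤ s) : Ty U q (fun α => add q (h α)) := by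
  filter_upwards [H, ev_bdd hN h0 q, H.cp hN h0 hq] with α hα hb hcp
  ext x
  constructor
  · rintro ⟨h1, h2⟩
    rw [add_g hcp] at h1
    rcases h1 with h1 | h1
    · exact h1
    · have h3 : x ∈ cut (h α) α := ⟨h1, h2⟩
      rw [hα] at h3
      exact hq h3
  · intro h1
    refine ⟨?_, hb x h1⟩
    rw [add_g hcp]
    exact Or.inl h1

theorem Ty.add_le (hN : Nrm κ U) (h0 : ℵ₀ < κ) {s q : LC W K} {h : K → LC W K}
    (H : Ty U s h) (hq : q ≤ s) :
    ∀ᶠ α in (U : Filter K), Pool.Agent.H995R3.add q (h α) ≤ q ∧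
      Pool.Agent.H995R3.add q (h α) ≤ h α := by
  filter_upwards [H.cp hN h0 hq] with α hcp
  exact ⟨add_le_left hcp, add_le_right hcp⟩

/-- the union of a decreasing sequence of conditions -/
def iU (p : ℕ → LC W K) (hp : ∀ n, p (n + 1) ≤ p n) : LC W K where
  g := ⋃ n, (p n).g
  cnt := Set.countable_iUnion fun n => (p n).cnt
  fn := by
    intro β ξ γ γ' h1 h2
    obtain ⟨n, h1⟩ := Set.mem_iUnion.1 h1
    obtain ⟨m, h2⟩ := Set.mem_iUnion.1 h2
    have ha : Antitone p := antitone_nat_of_succ_le hp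
    exact (p (max n m)).fn _ _ _ _ (ha (le_max_left n m) h1) (ha (le_max_right n m) h2)
  val := by
    intro β ξ γ h1
    obtain ⟨n, h1⟩ := Set.mem_iUnion.1 h1
    exact (p n).val _ _ _ h1

theorem iU_le (p : ℕ → LC W K) (hp : ∀ n, p (n + 1) ≤ p n) (n : ℕ) : iU p hp ≤ p n :=
  Set.subset_iUnion (fun n => (p n).g) n

theorem exists_lim (hN : Nrm κ U) (h0 : ℵ₀ < κ) (h : ℕ → K → LC W K)
    (hle : ∀ n, ∀ᶠ α in (U : Filter K), h (n + 1) α ≤ h n α) :
    ∃ H : K → LC W K, (∀ n, ∀ᶠ α in (U : Filter K), H α ≤ h n α) ∧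
      ∀ (s : ℕ → LC W K) (t : LC W K), (∀ n, Ty U (s n) (h n)) → t.g = (⋃ n, (s n).g) →
        Ty U t H := by
  classical
  have hall : ∀ᶠ α in (U : Filter K), ∀ n : ℕ, h (n + 1) α ≤ h n α :=
    hN.comp (by rw [Cardinal.mk_nat]; exact h0) (fun (n : ℕ) α => h (n + 1) α ≤ h n α) hle
  refine ⟨fun α => if hα : ∀ n : ℕ, h (n + 1) α ≤ h n α then iU (fun n => h n α) hα else h 0 α,
    ?_, ?_⟩
  · intro n
    filter_upwards [hall] with α hα
    rw [dif_pos hα]
    exact iU_le (fun n => h n α) hα n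
  · intro s t hs ht
    have hs' : ∀ᶠ α in (U : Filter K), ∀ n : ℕ, cut (h n α) α = (s n).g :=
      hN.comp (by rw [Cardinal.mk_nat]; exact h0) (fun (n : ℕ) α => cut (h n α) α = (s n).g) hs
    filter_upwards [hall, hs'] with α hα hsα
    rw [dif_pos hα, ht]
    ext x
    simp only [cut, iU, Set.mem_iUnion, Set.mem_ofPred_eq]
    constructor
    · rintro ⟨⟨n, hn⟩, hx⟩
      refine ⟨n, ?_⟩
      rw [← hsα n]
      exact ⟨hn, hx⟩
    · rintro ⟨n, hn⟩
      rw [← hsα n] at hn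
      exact ⟨⟨n, hn.1⟩, hn.2⟩

end Pool.Agent.H995R3
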